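import Pool.Agent.H964.CW.Stm

/-! # Project CW: PTH (following one fixed path) -/

set_option autoImplicit false

open MeasureTheory ProbabilityTheory Filter Finset

namespace Pool.Agent.H695.CW

open Pool.Agent.H964.QC Pool.Agent.H964.CW

theorem zr_nonneg {V : Type} [Fintype V] [DecidableEq V] {C0 : ℝ} {N0 : ℕ} (W : Wlk V C0 N0)
    (x : ℕ → V → ℝ) (hx : ∀ n v, -1 < x n v) : ∀ j y, 0 ≤ Zr W x j y := by
  intro j
  induction j with
  | zero => intro y; simp [Zr]
  | succ j ih =>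
    intro y
    rw [Zr]
    refine Finset.sum_nonneg fun z _ => mul_nonneg (W.K_nonneg _ _ _) (mul_nonneg ?_ (ih z))
    linarith [hx (j + 1) z]

theorem pth_one {V : Type} [Fintype V] [DecidableEq V] {C0 : ℝ} {N0 : ℕ} (W : Wlk V C0 N0)
    (x : ℕ → V → ℝ) (T : ℕ) (p : ℕ → V) (hx : ∀ n v, -1 < x n v) : ∀ τ : ℕ,
    (∀ k, k < τ → W.K 1 (p (k + 1)) (p k) = 1 / 4) →
    (1 / 4) ^ τ * (∏ k ∈ Finset.range τ, (1 + x (T + k + 1) (p k))) * Zr W x T (p 0) ≤
      Zr W x (T + τ) (p τ) := by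
  intro τ
  induction τ with
  | zero => intro _; simp
  | succ τ ih =>
    intro hK
    have h1 := ih (fun k hk => hK k (by omega))
    have h2 : T + (τ + 1) = (T + τ) + 1 := by omega
    rw [h2, Zr]
    have h3 : W.K 1 (p (τ + 1)) (p τ) * ((1 + x (T + τ + 1) (p τ)) * Zr W x (T + τ) (p τ)) ≤
        ∑ z, W.K 1 (p (τ + 1)) z * ((1 + x (T + τ + 1) z) * Zr W x (T + τ) z) := by
      refine Finset.single_le_sum
        (f := fun z => W.K 1 (p (τ + 1)) z * ((1 + x (T + τ + 1) z) * Zr W x (T + τ) z)) ?_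
        (Finset.mem_univ (p τ))
      intro z _
      refine mul_nonneg (W.K_nonneg _ _ _) (mul_nonneg ?_ (zr_nonneg W x hx _ z))
      linarith [hx (T + τ + 1) z]
    refine le_trans ?_ h3
    rw [hK τ (by omega), Finset.prod_range_succ, pow_succ]
    have h4 : 0 ≤ 1 + x (T + τ + 1) (p τ) := by linarith [hx (T + τ + 1) (p τ)]
    calc (1 / 4 : ℝ) ^ τ * (1 / 4) * ((∏ k ∈ Finset.range τ, (1 + x (T + k + 1) (p k))) *
          (1 + x (T + τ + 1) (p τ))) * Zr W x T (p 0)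
        = 1 / 4 * ((1 + x (T + τ + 1) (p τ)) * ((1 / 4) ^ τ *
          (∏ k ∈ Finset.range τ, (1 + x (T + k + 1) (p k))) * Zr W x T (p 0))) := by ring
      _ ≤ 1 / 4 * ((1 + x (T + τ + 1) (p τ)) * Zr W x (T + τ) (p τ)) := by
          gcongr

/-- the first coordinate of the path -/
def pf (τ b k : ℕ) : ℤ := if k + b ≤ τ then (b : ℤ) + (((τ - b - k) % 2 : ℕ) : ℤ) else (τ : ℤ) - k

theorem pf_step (τ b k : ℕ) (hk : k < τ) (hb : b ≤ τ) :
    pf τ b k - pf τ b (k + 1) = 1 ∨ pf τ b k - pf τ b (k + 1) = -1 := by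
  unfold pf
  by_cases h1 : k + 1 + b ≤ τ
  · rw [if_pos (by omega), if_pos h1]
    omega
  · by_cases h2 : k + b ≤ τ
    · rw [if_pos h2, if_neg h1]
      have h3 : k = τ - b := by omega
      have h4 : (τ - b - k) % 2 = 0 := by omega
      rw [h4]
      omega
    · rw [if_neg h2, if_neg h1]
      omega

theorem pg_step (k : ℕ) : (((k % 2 : ℕ) : ℤ) - (((k + 1) % 2 : ℕ) : ℤ)) = 1 ∨
    (((k % 2 : ℕ) : ℤ) - (((k + 1) % 2 : ℕ) : ℤ)) = -1 := by
  omega

theorem q1_one {M : ℕ} (hM : 4 ≤ M) (i : ℤ) (hi : i = 1 ∨ i = -1) : q1 M 1 ((i : ℤ) : ZMod M) = 1 / 2 := by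
  have h2 : ((2 : ℤ) : ZMod M) ≠ 0 := by
    rw [Ne, ZMod.intCast_zmod_eq_zero_iff_dvd]
    intro h
    have := Int.le_of_dvd (by norm_num) h
    omega
  rcases hi with rfl | rfl
  · simp only [q1]
    have h3 : (((1 : ℤ) : ZMod M) - 1) = 0 := by simp
    have h4 : (((1 : ℤ) : ZMod M) + 1) ≠ 0 := by
      intro h
      apply h2
      rw [← h]
      push_cast
      ring
    rw [if_pos h3, if_neg h4]
    norm_num
  · simp only [q1]
    have h3 : (((-1 : ℤ) : ZMod M) + 1) = 0 := by simp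
    have h4 : (((-1 : ℤ) : ZMod M) - 1) ≠ 0 := by
      intro h
      apply h2
      have : ((2 : ℤ) : ZMod M) = -(((-1 : ℤ) : ZMod M) - 1) := by
        push_cast
        ring
      rw [this, h, neg_zero]
    rw [if_pos h3, if_neg h4]
    norm_num

theorem pth_two (C0 : ℝ) (N0 M : ℕ) [NeZero M] (W : Wlk (ZMod M × ZMod M) C0 N0) (hW : IsTor W)
    (y : ZMod M × ZMod M) (τ b : ℕ) (hτ : Even τ) (hb : Even b) (hbτ : b ≤ τ)
    (hy : |X1 y| + τ ≤ 2 * N0) :
    ∃ p : ℕ → ZMod M × ZMod M, p τ = y ∧ (∀ k, k < τ → W.K 1 (p (k + 1)) (p k) = 1 / 4) ∧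
      X1 (p 0) = X1 y + b ∧ X2 (p 0) = X2 y := by
  have hM := hW.hM
  have hM4 : 4 ≤ M := by omega
  refine ⟨fun k => (y.1 + ((pf τ b k : ℤ) : ZMod M), y.2 + ((((k % 2 : ℕ) : ℤ)) : ZMod M)), ?_, ?_, ?_, ?_⟩
  · have h1 : pf τ b τ = 0 := by
      unfold pf
      by_cases h : τ + b ≤ τ
      · have hb0 : b = 0 := by omega
        subst hb0
        rw [if_pos h]
        simp
      · rw [if_neg h]
        ring
    have h2 : τ % 2 = 0 := Nat.even_iff.1 hτ
    simp only [h1, h2]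
    simp
  · intro k hk
    rw [hW.K_eq]
    have e1 : (y.1 + ((pf τ b k : ℤ) : ZMod M)) - (y.1 + ((pf τ b (k + 1) : ℤ) : ZMod M)) =
        (((pf τ b k - pf τ b (k + 1) : ℤ)) : ZMod M) := by
      push_cast
      ring
    have e2 : (y.2 + ((((k % 2 : ℕ) : ℤ)) : ZMod M)) - (y.2 + (((((k + 1) % 2 : ℕ) : ℤ)) : ZMod M)) =
        ((((k % 2 : ℕ) : ℤ) - (((k + 1) % 2 : ℕ) : ℤ) : ℤ) : ZMod M) := by
      rw [Int.cast_sub]
      ring
    show q1 M 1 ((y.1 + ((pf τ b k : ℤ) : ZMod M)) - (y.1 + ((pf τ b (k + 1) : ℤ) : ZMod M))) *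
      q1 M 1 ((y.2 + ((((k % 2 : ℕ) : ℤ)) : ZMod M)) - (y.2 + (((((k + 1) % 2 : ℕ) : ℤ)) : ZMod M))) = 1 / 4
    rw [e1, e2, q1_one hM4 _ (pf_step τ b k hk hbτ), q1_one hM4 _ (pg_step k)]
    norm_num
  · have h1 : pf τ b 0 = b := by
      unfold pf
      rw [if_pos (by omega)]
      have h3 : (τ - b - 0) % 2 = 0 := by
        have h4 := Nat.even_iff.1 hτ
        have h5 := Nat.even_iff.1 hb
        omega
      rw [h3]
      simp
    show X1 (y.1 + ((pf τ b 0 : ℤ) : ZMod M), _) = _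
    rw [h1]
    unfold X1 at hy ⊢
    show (y.1 + ((b : ℤ) : ZMod M)).valMinAbs = y.1.valMinAbs + b
    rw [ZMod.valMinAbs_spec]
    refine ⟨?_, ?_⟩
    · push_cast
      simp
    · have h6 := abs_le.1 (le_trans (by omega : |y.1.valMinAbs| ≤ 2 * N0 - τ) le_rfl)
      have h7 := ZMod.valMinAbs_mem_Ioc y.1
      constructor
      · have := h7.1
        have hb0 : (0 : ℤ) ≤ b := by positivity
        nlinarith
      · have : y.1.valMinAbs + b ≤ 2 * N0 := by
          have hbt : (b : ℤ) ≤ τ := by exact_mod_cast hbτ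
          omega
        have hM' : (M : ℤ) = 4 * N0 + 4 := by exact_mod_cast hM
        omega
  · show X2 (y.1 + _, y.2 + ((((0 % 2 : ℕ) : ℤ)) : ZMod M)) = _
    unfold X2
    simp

theorem pth_three {V : Type} [Fintype V] [DecidableEq V] {Ω : Type} [MeasurableSpace Ω]
    (P : Measure Ω) [IsProbabilityMeasure P] (s2 κ : ℝ)
    (η : ℕ → V → Ω → ℝ) (h : NoiseI P s2 κ η) (T τ : ℕ) (p : ℕ → V) (u : ℝ) :
    P.real {ω | ∏ k ∈ Finset.range τ, (1 + η (T + k + 1) (p k) ω) < Real.exp (-u)} ≤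
      Real.exp (τ - u) := by
  obtain ⟨hN, hI⟩ := h
  set g : ℕ → Ω → ℝ := fun k ω => (1 + η (T + k + 1) (p k) ω)⁻¹ with hg
  have hinj : Function.Injective (fun k : ℕ => (T + k + 1, p k)) := by
    intro a b hab
    have := (Prod.mk.inj hab).1
    omega
  have hmeas : ∀ k, Measurable (g k) := fun k => (measurable_const.add (hN.meas _ _)).inv
  have hind : iIndepFun g P := by
    have h1 := hN.indep.precomp hinj
    exact h1.comp (fun _ x => (1 + x)⁻¹) (fun _ => (measurable_const.add measurable_id).inv)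
  have hpos : ∀ k ω, 0 < g k ω := by
    intro k ω
    have := hN.gt (T + k + 1) (p k) ω
    exact inv_pos.2 (by linarith)
  have key : ∀ n : ℕ, Integrable (∏ k ∈ Finset.range n, g k) P ∧
      ∫ ω, (∏ k ∈ Finset.range n, g k) ω ∂P ≤ 2 ^ n := by
    intro n
    induction n with
    | zero =>
      rw [Finset.prod_range_zero]
      refine ⟨integrable_const (1 : ℝ), ?_⟩
      simp
    | succ n ih =>
      have h1 : IndepFun (∏ k ∈ Finset.range n, g k) (g n) P :=
        hind.indepFun_prod_range_succ hmeas n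
      have h2 : Integrable (g n) P := (hI _ _).1
      rw [Finset.prod_range_succ]
      refine ⟨h1.integrable_mul ih.1 h2, ?_⟩
      rw [h1.integral_mul_eq_mul_integral ih.1.aestronglyMeasurable h2.aestronglyMeasurable, pow_succ]
      refine mul_le_mul ih.2 (hI _ _).2 ?_ (by positivity)
      exact integral_nonneg fun ω => (hpos n ω).le
  obtain ⟨hint, hle⟩ := key τ
  have hnn : 0 ≤ᵐ[P] (∏ k ∈ Finset.range τ, g k) := by
    refine Filter.Eventually.of_forall fun ω => ?_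
    rw [Finset.prod_apply]
    exact Finset.prod_nonneg fun k _ => (hpos k ω).le
  have hmk := mul_meas_ge_le_integral_of_nonneg hnn hint (Real.exp u)
  have hsub : P.real {ω | ∏ k ∈ Finset.range τ, (1 + η (T + k + 1) (p k) ω) < Real.exp (-u)} ≤
      P.real {ω | Real.exp u ≤ (∏ k ∈ Finset.range τ, g k) ω} := by
    apply measureReal_mono
    · intro ω hω
      simp only [Set.mem_setOf_eq] at hω ⊢
      rw [Finset.prod_apply]
      have e1 : ∏ k ∈ Finset.range τ, g k ω = (∏ k ∈ Finset.range τ, (1 + η (T + k + 1) (p k) ω))⁻¹ := by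
        rw [← Finset.prod_inv_distrib]
      rw [e1]
      have hp : 0 < ∏ k ∈ Finset.range τ, (1 + η (T + k + 1) (p k) ω) := by
        refine Finset.prod_pos fun k _ => ?_
        have := hN.gt (T + k + 1) (p k) ω
        linarith
      rw [Real.exp_neg] at hω
      rw [le_inv_comm₀ (Real.exp_pos _) hp]
      exact hω.le
    · exact measure_ne_top _ _
  have h2e : (2 : ℝ) ^ τ ≤ Real.exp τ := by
    rw [← Real.exp_one_pow]
    have : (2 : ℝ) ≤ Real.exp 1 := by
      have := Real.add_one_le_exp (1 : ℝ)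
      linarith
    exact pow_le_pow_left₀ (by norm_num) this τ
  have hfin : Real.exp u * P.real {ω | ∏ k ∈ Finset.range τ, (1 + η (T + k + 1) (p k) ω) < Real.exp (-u)} ≤
      Real.exp τ := by
    calc _ ≤ Real.exp u * P.real {ω | Real.exp u ≤ (∏ k ∈ Finset.range τ, g k) ω} := by
          gcongr
      _ ≤ _ := hmk
      _ ≤ 2 ^ τ := hle
      _ ≤ _ := h2e
  rw [Real.exp_sub, le_div_iff₀ (Real.exp_pos _), mul_comm]
  exact hfin

theorem t_PTH : S_PTH := by
  intro C0 N0 M _ W hW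
  refine ⟨?_, ?_, ?_⟩
  · intro x T τ p hx hK
    exact pth_one W x T p hx τ hK
  · intro y τ b hτ hb hbτ hy
    exact pth_two C0 N0 M W hW y τ b hτ hb hbτ hy
  · intro Ω _ P _ s2 κ η h T τ p u
    exact pth_three P s2 κ η h T τ p u

end Pool.Agent.H695.CW
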